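import Pool.Agent.W223.Osasm.Main

set_option autoImplicit false

namespace Pool.Agent.Results.MP_d12cfa_co.PfaffianIdentity

open Pool.Agent.Helper929 Pool.Agent.W223.Osasm

/-- The Pfaffian identity for odd-order off-diagonally symmetric alternating sign matrices:
for every `n` the two skew-symmetric arrays of order `2 * n + 2`, with entries the coefficients
of `(y - x) / ((1 - x y) (1 - x - y))` outside the last column and with last column
`(-1) ^ a`, respectively `((-1) ^ a + 2 ^ a) / 2`, have the same Pfaffian. -/
theorem result : ∀ n : ℕ,
    pf (2 * n + 2) (arr n (fun a => (-1) ^ a)) =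
      pf (2 * n + 2) (arr n (fun a => ((-1) ^ a + 2 ^ a) / 2)) :=
  Pool.Agent.W223.Osasm.main

end Pool.Agent.Results.MP_d12cfa_co.PfaffianIdentity
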